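import Pool.Agent.helper76.FF2.Spec

/-! Row ff2:DSM (MP_bbe200_nt) -/

set_option autoImplicit false

namespace Pool.Agent.FF2

open Polynomial

theorem DSM (K : Type*) [Field K] [CharP K 2] (h1 : E2A_stmt K) : DSM_stmt K := by
  obtain ⟨-, -, -, -, hcongr, hadd, -, hconst, -⟩ := h1
  intro R₁ R₂ B f
  induction B using Finset.cons_induction with
  | empty =>
    intro _ _
    simp only [Finset.sum_empty]
    have e0 : ∀ R : Finset K, e2 R (fun _ => (0 : K)) = 0 := by
      intro R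
      rw [hconst R 0]
      ring
    rw [e0, e0, add_zero]
  | cons a B ha ih =>
    intro hs hp
    have hs' : ∀ b ∈ B, ∑ x ∈ R₁, f b x = ∑ x ∈ R₂, f b x :=
      fun b hb => hs b (Finset.mem_cons_of_mem hb)
    have hp' : ∀ b ∈ B, ∀ c ∈ B, b ≠ c → ∑ x ∈ R₁, f b x * f c x = ∑ x ∈ R₂, f b x * f c x :=
      fun b hb c hc => hp b (Finset.mem_cons_of_mem hb) c (Finset.mem_cons_of_mem hc)
    have ih' := ih hs' hp'
    have e1 : ∀ R : Finset K, e2 R (fun x => ∑ b ∈ Finset.cons a B ha, f b x) =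
        e2 R (f a) + e2 R (fun x => ∑ b ∈ B, f b x) + (∑ x ∈ R, f a x) * (∑ x ∈ R, ∑ b ∈ B, f b x) +
          ∑ x ∈ R, f a x * ∑ b ∈ B, f b x := by
      intro R
      rw [← hadd R (f a) (fun x => ∑ b ∈ B, f b x)]
      apply hcongr
      intro x _
      rw [Finset.sum_cons]
    have e2' : ∑ x ∈ R₁, f a x = ∑ x ∈ R₂, f a x := hs a (Finset.mem_cons_self a B)
    have e3 : ∑ x ∈ R₁, ∑ b ∈ B, f b x = ∑ x ∈ R₂, ∑ b ∈ B, f b x := by
      rw [Finset.sum_comm, Finset.sum_comm (s := R₂)]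
      exact Finset.sum_congr rfl hs'
    have e4 : ∑ x ∈ R₁, f a x * ∑ b ∈ B, f b x = ∑ x ∈ R₂, f a x * ∑ b ∈ B, f b x := by
      simp only [Finset.mul_sum]
      rw [Finset.sum_comm, Finset.sum_comm (s := R₂)]
      apply Finset.sum_congr rfl
      intro b hb
      apply hp a (Finset.mem_cons_self a B) b (Finset.mem_cons_of_mem hb)
      rintro rfl
      exact ha hb
    rw [e1, e1, Finset.sum_cons, ← ih', e2', e3, e4]
    have h2 : ∀ x : K, x + x = 0 := fun x => CharTwo.add_self_eq_zero x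
    have key : ∀ p q r s t u : K, (p + q + t + u) + (r + s + t + u) = p + r + (q + s) + ((t + t) + (u + u)) := by
      intro p q r s t u
      ring
    rw [key, h2, h2]
    ring

end Pool.Agent.FF2
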