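import Pool.Agent.helper76.FF2.Spec

/-! Row ff2:TRS (MP_bbe200_nt) -/

set_option autoImplicit false

namespace Pool.Agent.FF2

open Polynomial

section

variable {F : Type*} [Field F] [Fintype F]

/-- the polynomials of degree `< d` have different values at `α` -/
theorem TRS_inj {P : F[X]} (hP : P.Monic) (hi : Irreducible P) {α : AlgebraicClosure F} (hα : aeval α P = 0) :
    Function.Injective (fun v : Fin P.natDegree → F =>
      aeval α (((degreeLTEquiv F P.natDegree).symm v : degreeLT F P.natDegree) : F[X])) := by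
  intro v v' h
  apply (degreeLTEquiv F P.natDegree).symm.injective
  apply Subtype.ext
  have h1 : P ∣ (((degreeLTEquiv F P.natDegree).symm v : degreeLT F P.natDegree) : F[X]) -
      (((degreeLTEquiv F P.natDegree).symm v' : degreeLT F P.natDegree) : F[X]) := by
    apply helper36.FF.dvd_of_aeval hP hi hα
    rw [map_sub]
    exact sub_eq_zero.2 h
  have h2 : degree ((((degreeLTEquiv F P.natDegree).symm v : degreeLT F P.natDegree) : F[X]) -
      (((degreeLTEquiv F P.natDegree).symm v' : degreeLT F P.natDegree) : F[X])) < degree P := by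
    rw [degree_eq_natDegree hP.ne_zero]
    apply mem_degreeLT.1
    exact Submodule.sub_mem _ ((degreeLTEquiv F P.natDegree).symm v).2 ((degreeLTEquiv F P.natDegree).symm v').2
  exact sub_eq_zero.1 (eq_zero_of_dvd_of_degree_lt h1 h2)

/-- the truncated trace is a polynomial of degree less than `2 ^ M` -/
theorem TRS_few {K : Type*} [Field K] (M : ℕ) (hM : 1 ≤ M) (s : Finset K) (hs : ∀ y ∈ s, bt M y = 0) :
    s.card < 2 ^ M := by
  classical
  set T : K[X] := ∑ i ∈ Finset.range M, X ^ 2 ^ i with hT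
  have h0 : T ≠ 0 := by
    intro h
    have h1 : T.coeff 1 = 1 := by
      rw [hT, finsetSum_coeff, Finset.sum_eq_single 0]
      · simp
      · intro i _ hi
        rw [coeff_X_pow, if_neg]
        intro h2
        have : 2 ^ 1 ≤ 2 ^ i := Nat.pow_le_pow_right (by norm_num) (Nat.one_le_iff_ne_zero.2 hi)
        omega
      · intro h2
        exact absurd (Finset.mem_range.2 (by omega)) h2
    rw [h, coeff_zero] at h1
    exact zero_ne_one h1
  have hd : T.natDegree ≤ 2 ^ (M - 1) := by
    rw [hT]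
    apply natDegree_sum_le_of_forall_le
    intro i hi
    rw [natDegree_X_pow]
    have := Finset.mem_range.1 hi
    exact Nat.pow_le_pow_right (by norm_num) (by omega)
  have hsub : s ⊆ T.roots.toFinset := by
    intro y hy
    rw [Multiset.mem_toFinset, mem_roots h0, IsRoot.def, hT, eval_finsetSum]
    simp only [eval_pow, eval_X]
    exact hs y hy
  calc s.card ≤ T.roots.toFinset.card := Finset.card_le_card hsub
    _ ≤ Multiset.card T.roots := Multiset.toFinset_card_le _
    _ ≤ T.natDegree := card_roots' T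
    _ ≤ 2 ^ (M - 1) := hd
    _ < 2 ^ M := Nat.pow_lt_pow_right (by norm_num) (by omega)

theorem TRS_bt {K : Type*} [Field K] (m : ℕ) (z : K) (d : ℕ) :
    ∑ i ∈ Finset.range d, bt m (z ^ (2 ^ m) ^ i) = bt (m * d) z := by
  induction d with
  | zero => simp [bt]
  | succ d ih =>
    rw [Finset.sum_range_succ, ih]
    unfold bt
    rw [Nat.mul_succ, Finset.sum_range_add]
    congr 1
    apply Finset.sum_congr rfl
    intro j _
    rw [← pow_mul, ← pow_mul, ← pow_add]

open Classical in
theorem TRS_rs {P : F[X]} (hP : P.Monic) (hi : Irreducible P) {α : AlgebraicClosure F} (hα : aeval α P = 0)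
    (g : AlgebraicClosure F → AlgebraicClosure F) :
    ∑ b ∈ rs P, g b = ∑ i ∈ Finset.range P.natDegree, g (α ^ Fintype.card F ^ i) := by
  have h1 : rs P = (Finset.range P.natDegree).image (fun i => α ^ Fintype.card F ^ i) := by
    ext x
    unfold rs
    rw [Multiset.mem_toFinset, helper36.FF.aroots_irr hP hi hα, Multiset.mem_map, Finset.mem_image]
    constructor
    · rintro ⟨i, -, rfl⟩
      exact ⟨i, Finset.mem_range.2 i.2, rfl⟩
    · rintro ⟨i, hi', rfl⟩
      exact ⟨⟨i, Finset.mem_range.1 hi'⟩, by rw [Finset.mem_val]; exact Finset.mem_univ _, rfl⟩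
  rw [h1, Finset.sum_image]
  intro i hi' j hj' hij
  have hi2 := Finset.mem_range.1 (Finset.mem_coe.1 hi')
  have hj2 := Finset.mem_range.1 (Finset.mem_coe.1 hj')
  rcases lt_trichotomy i j with h | h | h
  · exact absurd hij (helper36.FF.root_pow_inj hP hi hα h hj2)
  · exact h
  · exact absurd hij.symm (helper36.FF.root_pow_inj hP hi hα h hi2)

end

open Classical in
theorem TRS (F : Type*) [Field F] [Fintype F] [CharP F 2] (h1 : BT0_stmt (AlgebraicClosure F)) (h2 : RTS_stmt F) :
    TRS_stmt F := by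
  intro m hq P hP hi hd c hc
  obtain ⟨hadd, hzero, -, h01, hsq, hsum⟩ := h1
  have hm : 1 ≤ m := by
    rcases Nat.eq_zero_or_pos m with h | h
    · exfalso
      rw [h, pow_zero] at hq
      have := Fintype.one_lt_card (α := F)
      omega
    · exact h
  obtain ⟨α, hα⟩ := IsAlgClosed.exists_aeval_eq_zero (AlgebraicClosure F) P (by
    rw [degree_eq_natDegree hP.ne_zero]
    exact_mod_cast (by omega : P.natDegree ≠ 0))
  set d := P.natDegree with hdd
  have hM2 : 2 ≤ m * d := by nlinarith
  have hqd : Fintype.card F ^ d = 2 ^ (m * d) := by rw [hq, ← pow_mul]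
  have h4 : 4 ≤ 2 ^ (m * d) := by
    calc 4 = 2 ^ 2 := by norm_num
      _ ≤ 2 ^ (m * d) := Nat.pow_le_pow_right (by norm_num) hM2
  have hfix : ∀ x : F[X], (aeval α x) ^ 2 ^ (m * d) = aeval α x := by
    intro x
    rw [← hqd, ← helper36.FF.aeval_pow_card, helper36.FF.root_pow_natDegree hP hi hα]
  set φ : (Fin d → F) → AlgebraicClosure F := fun v =>
    aeval α (((degreeLTEquiv F d).symm v : degreeLT F d) : F[X]) with hφ
  have hinj : Function.Injective φ := TRS_inj hP hi hα
  have hφx : ∀ v, ∃ x : F[X], φ v = aeval α x := fun v => ⟨_, rfl⟩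
  have hcardv : Fintype.card (Fin d → F) = 2 ^ (m * d) := by
    rw [Fintype.card_fun, Fintype.card_fin, hqd]
  have hφ0 : φ 0 = 0 := by
    simp only [hφ, map_zero]
    simp
  -- an element with trace one
  obtain ⟨v₁, hv₁⟩ : ∃ v, bt (m * d) (φ v) = 1 := by
    by_contra hcon
    push Not at hcon
    have h5 := TRS_few (m * d) (by omega) (Finset.univ.image φ) (by
      intro y hy
      obtain ⟨v, -, rfl⟩ := Finset.mem_image.1 hy
      obtain ⟨x, hx⟩ := hφx v
      rcases h01 (m * d) (φ v) (by rw [hx]; exact hfix x) with h | h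
      · exact h
      · exact absurd h (hcon v))
    rw [Finset.card_image_of_injective _ hinj, Finset.card_univ, hcardv] at h5
    exact absurd h5 (lt_irrefl _)
  -- a nonzero element with trace c
  obtain ⟨x₀, hx₀, hx₀c⟩ : ∃ x₀ : F[X], aeval α x₀ ≠ 0 ∧ bt (m * d) (aeval α x₀) = c := by
    rcases hc with hc | hc
    · subst hc
      have hlt : ({0, v₁} : Finset (Fin d → F)).card < (Finset.univ : Finset (Fin d → F)).card := by
        have : ({0, v₁} : Finset (Fin d → F)).card ≤ 2 := Finset.card_le_two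
        rw [Finset.card_univ, hcardv]
        omega
      obtain ⟨v, -, hv⟩ := Finset.exists_mem_notMem_of_card_lt_card hlt
      rw [Finset.mem_insert, Finset.mem_singleton, not_or] at hv
      obtain ⟨x, hx⟩ := hφx v
      obtain ⟨x₁, hx₁⟩ := hφx v₁
      rcases h01 (m * d) (φ v) (by rw [hx]; exact hfix x) with h | h
      · refine ⟨x, ?_, ?_⟩
        · rw [← hx]
          intro h6
          exact hv.1 (hinj (h6.trans hφ0.symm))
        · rw [← hx]
          exact h
      · refine ⟨x + x₁, ?_, ?_⟩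
        · rw [map_add, ← hx, ← hx₁]
          intro h6
          apply hv.2
          apply hinj
          rw [CharTwo.add_eq_zero] at h6
          exact h6
        · rw [map_add, ← hx, ← hx₁, hadd, h, hv₁]
          exact CharTwo.add_self_eq_zero 1
    · subst hc
      obtain ⟨x₁, hx₁⟩ := hφx v₁
      refine ⟨x₁, ?_, ?_⟩
      · intro h6
        rw [hx₁, h6, hzero] at hv₁
        exact zero_ne_one hv₁
      · rw [← hx₁]
        exact hv₁
  obtain ⟨y, hy⟩ : ∃ y, y = aeval α x₀ := ⟨_, rfl⟩
  rw [← hy] at hx₀ hx₀c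
  have hyfix : y ^ 2 ^ (m * d) = y := by rw [hy]; exact hfix x₀
  have hyinv : y ^ (2 ^ (m * d) - 2) = y⁻¹ := by
    apply eq_inv_of_mul_eq_one_left
    have e1 : y ^ (2 ^ (m * d) - 2) * y * y = y := by
      rw [← pow_succ, ← pow_succ, show 2 ^ (m * d) - 2 + 1 + 1 = 2 ^ (m * d) by omega]
      exact hyfix
    have e2 : y ^ (2 ^ (m * d) - 2) * y * y = 1 * y := by rw [e1, one_mul]
    exact mul_right_cancel₀ hx₀ e2
  refine ⟨x₀ ^ (2 ^ (m * d) - 2), fun w hw => ?_⟩
  have hαw : aeval α w = y⁻¹ := by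
    obtain ⟨g, hg⟩ := hw
    have e1 : w = x₀ ^ (2 ^ (m * d) - 2) + P * g := by rw [← hg]; ring
    rw [e1, map_add, map_mul, hα, zero_mul, add_zero, map_pow, ← hy, hyinv]
  refine ⟨?_, ?_⟩
  · rintro ⟨g, hg⟩
    rw [hg, map_mul, hα, zero_mul] at hαw
    exact inv_ne_zero hx₀ hαw.symm
  · rw [hsum, TRS_rs hP hi hα]
    have e1 : ∀ i ∈ Finset.range d, bt m (1 / (aeval (α ^ Fintype.card F ^ i) w) ^ 4) = bt m ((y ^ 4) ^ (2 ^ m) ^ i) := by
      intro i _
      rw [helper36.FF.aeval_pow_card, hαw, hq]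
      congr 1
      rw [inv_pow, inv_pow, one_div, inv_inv]
      rw [← pow_mul y, ← pow_mul y, Nat.mul_comm]
    rw [Finset.sum_congr rfl e1, TRS_bt]
    have e2 : bt (m * d) (y ^ 2) = bt (m * d) y := hsq _ _ hyfix
    have e3 : bt (m * d) ((y ^ 2) ^ 2) = bt (m * d) (y ^ 2) := by
      apply hsq
      rw [← pow_mul, mul_comm, pow_mul, hyfix]
    rw [show y ^ 4 = (y ^ 2) ^ 2 by ring, e3, e2]
    exact hx₀c

end Pool.Agent.FF2
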